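import Mathlib
import Pool.Agent.H75.ApolarExample

set_option autoImplicit false

namespace Pool.Agent.Results.MP_f758bb_ag.RegularityFour

open MvPolynomial

/-- The operator `∂/∂x_s` on polynomials. -/
noncomputable def dOp {σ : Type} (s : σ) : Module.End ℂ (MvPolynomial σ ℂ) :=
  (pderiv s).toLinearMap

/-- Partial derivatives commute. -/
theorem dOp_comm {σ : Type} (s t : σ) : Commute (dOp s) (dOp t) := by
  classical
  rcases eq_or_ne s t with rfl | hst
  · exact Commute.refl _
  · refine LinearMap.ext fun p => ?_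
    rw [Module.End.mul_apply, Module.End.mul_apply]
    change pderiv s (pderiv t p) = pderiv t (pderiv s p)
    ext m
    simp only [coeff_pderiv, Finsupp.add_apply, Finsupp.single_apply, if_neg hst,
      if_neg (Ne.symm hst)]
    rw [add_right_comm m]
    push_cast
    ring

/-- `∂^α`, the product over all variables `s` of `(∂/∂x_s)^(α s)`. -/
noncomputable def partialD {σ : Type} [Fintype σ] (α : σ →₀ ℕ) :
    Module.End ℂ (MvPolynomial σ ℂ) :=
  Finset.univ.noncommProd (fun s => dOp s ^ α s) (fun s _ t _ _ => (dOp_comm s t).pow_pow _ _)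

/-- The action `g ∘ f = g(∂/∂x) f` of a polynomial `g` on a polynomial `f` by differentiation. -/
noncomputable def act {σ : Type} [Fintype σ] (g f : MvPolynomial σ ℂ) : MvPolynomial σ ℂ :=
  ∑ α ∈ g.support, g.coeff α • partialD α f

/-- The Hilbert function of `I`: the dimension of the space of the classes of the forms of
degree `t` in the quotient by `I`. -/
noncomputable def hilb {σ : Type} (I : Ideal (MvPolynomial σ ℂ)) (t : ℕ) : ℕ :=
  Module.finrank ℂ
    ((homogeneousSubmodule σ ℂ t).map (Ideal.Quotient.mkₐ ℂ I).toLinearMap)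

/-- `I` is the saturated homogeneous ideal of a zero-dimensional closed subscheme of degree `r`
of the projective space with homogeneous coordinates `x_s`. -/
structure PointScheme {σ : Type} (I : Ideal (MvPolynomial σ ℂ)) (r : ℕ) : Prop where
  /-- `I` is homogeneous -/
  homogeneous : ∀ g ∈ I, ∀ t : ℕ, homogeneousComponent t g ∈ I
  /-- `I` is saturated with respect to the irrelevant ideal -/
  saturated : ∀ g : MvPolynomial σ ℂ, (∃ N : ℕ,
    ∀ h ∈ (Ideal.span (Set.range (X : σ → MvPolynomial σ ℂ))) ^ N, h * g ∈ I) → g ∈ I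
  /-- the Hilbert function is `r` in all large degrees -/
  degree : ∃ t₀ : ℕ, ∀ t ≥ t₀, hilb I t = r

/-- The scheme of `I` is apolar to `f`: every element of `I` annihilates `f`. -/
def Apolar {σ : Type} [Fintype σ] (I : Ideal (MvPolynomial σ ℂ)) (f : MvPolynomial σ ℂ) : Prop :=
  ∀ g ∈ I, act g f = 0

/-- The variables: two variables `x_0, x_1` and `5 k` variables `y_(i,a)`. -/
abbrev Var (k : ℕ) := Fin 2 ⊕ (Fin 5 × Fin k)

/-- The cubic form `Σ_i Σ_a (x_0 + i x_1) y_(i,a)^2`, `i = 0, .., 4`. -/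
noncomputable def cubic (k : ℕ) : MvPolynomial (Var k) ℂ :=
  ∑ i : Fin 5, ∑ a : Fin k,
    (X (Sum.inl 0) + C ((i : ℕ) : ℂ) * X (Sum.inl 1)) * X (Sum.inr (i, a)) ^ 2

/-- The point `p_i = (1 : i : 0 : .. : 0)`. -/
noncomputable def point (k : ℕ) (i : Fin 5) : Var k → ℂ := Sum.elim ![1, ((i : ℕ) : ℂ)] 0

section bridge

variable {σ : Type} [Fintype σ]

/-- factorial of a multi-index -/
noncomputable def fac (β : σ →₀ ℕ) : ℂ := β.prod fun _ k => (k.factorial : ℂ)

lemma fac_eq (β : σ →₀ ℕ) : fac β = ∏ s, ((β s).factorial : ℂ) := by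
  rw [fac, Finsupp.prod_fintype]
  intro s
  simp

lemma fac_ne (β : σ →₀ ℕ) : fac β ≠ 0 := by
  rw [fac_eq]
  exact Finset.prod_ne_zero_iff.2 fun s _ => by exact_mod_cast (Nat.factorial_pos _).ne'

lemma fac_add_single [DecidableEq σ] (β : σ →₀ ℕ) (s : σ) :
    fac (β + Finsupp.single s 1) = fac β * (β s + 1) := by
  rw [fac_eq, fac_eq, ← Finset.mul_prod_erase _ _ (Finset.mem_univ s),
    ← Finset.mul_prod_erase _ (fun s => ((β s).factorial : ℂ)) (Finset.mem_univ s)]
  have h1 : ∏ t ∈ Finset.univ.erase s, (((β + Finsupp.single s 1 : σ →₀ ℕ) t).factorial : ℂ)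
      = ∏ t ∈ Finset.univ.erase s, ((β t).factorial : ℂ) := by
    refine Finset.prod_congr rfl fun t ht => ?_
    rw [Finsupp.add_apply, Finsupp.single_apply, if_neg (Finset.ne_of_mem_erase ht).symm,
      add_zero]
  rw [h1, Finsupp.add_apply, Finsupp.single_eq_same, Nat.factorial_succ]
  push_cast
  ring

lemma coeff_dOp (s : σ) (p : MvPolynomial σ ℂ) (β : σ →₀ ℕ) :
    coeff β (dOp s p) * fac β
      = coeff (β + Finsupp.single s 1) p * fac (β + Finsupp.single s 1) := by
  classical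
  change coeff β (pderiv s p) * fac β = _
  rw [coeff_pderiv, fac_add_single]
  ring

lemma coeff_dOp_pow (s : σ) (n : ℕ) (p : MvPolynomial σ ℂ) (β : σ →₀ ℕ) :
    coeff β ((dOp s ^ n) p) * fac β
      = coeff (β + Finsupp.single s n) p * fac (β + Finsupp.single s n) := by
  classical
  induction n generalizing β with
  | zero => simp
  | succ n ih =>
    rw [pow_succ', Module.End.mul_apply, coeff_dOp, ih, add_assoc, ← Finsupp.single_add,
      add_comm 1 n]

lemma coeff_partialD (α : σ →₀ ℕ) (p : MvPolynomial σ ℂ) (β : σ →₀ ℕ) :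
    coeff β (partialD α p) * fac β = coeff (α + β) p * fac (α + β) := by
  classical
  have key : ∀ (S : Finset σ) (hc : (S : Set σ).Pairwise
      (Function.onFun Commute (fun s => dOp s ^ α s))) (β : σ →₀ ℕ),
      coeff β (S.noncommProd (fun s => dOp s ^ α s) hc p) * fac β
      = coeff (β + ∑ s ∈ S, Finsupp.single s (α s)) p
        * fac (β + ∑ s ∈ S, Finsupp.single s (α s)) := by
    intro S
    induction S using Finset.induction_on with
    | empty => intro hc β; simp
    | insert s S hs ih =>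
      intro hc β
      rw [Finset.noncommProd_insert_of_notMem _ _ _ _ hs, Module.End.mul_apply, coeff_dOp_pow,
        ih, Finset.sum_insert hs, add_assoc]
  rw [partialD, key]
  have h1 : ∑ s, Finsupp.single s (α s) = α := Finsupp.univ_sum_single α
  rw [h1, add_comm]

lemma coeff_act (g f : MvPolynomial σ ℂ) (β : σ →₀ ℕ) :
    coeff β (act g f) = ∑ α ∈ g.support, g.coeff α * f.coeff (α + β) *
      ((α + β).prod (fun _ k => (k.factorial : ℂ)) / β.prod (fun _ k => (k.factorial : ℂ))) := by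
  rw [act, coeff_sum]
  refine Finset.sum_congr rfl fun α _ => ?_
  rw [coeff_smul, smul_eq_mul, mul_assoc]
  congr 1
  have h := coeff_partialD α f β
  have h1 : coeff β (partialD α f) = coeff (α + β) f * fac (α + β) / fac β := by
    rw [eq_div_iff (fac_ne β), h]
  rw [h1, mul_div_assoc]
  rfl

open Module in
lemma hilb_bridge (I : Ideal (MvPolynomial σ ℂ)) (t : ℕ) :
    hilb I t = finrank ℂ (homogeneousSubmodule σ ℂ t) -
      finrank ℂ (I.restrictScalars ℂ ⊓ homogeneousSubmodule σ ℂ t :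
        Submodule ℂ (MvPolynomial σ ℂ)) := by
  classical
  let q : homogeneousSubmodule σ ℂ t →ₗ[ℂ] (MvPolynomial σ ℂ ⧸ I) :=
    (Ideal.Quotient.mkₐ ℂ I).toLinearMap ∘ₗ (homogeneousSubmodule σ ℂ t).subtype
  have h1 := LinearMap.finrank_range_add_finrank_ker q
  have h2 : LinearMap.range q
      = (homogeneousSubmodule σ ℂ t).map (Ideal.Quotient.mkₐ ℂ I).toLinearMap := by
    rw [LinearMap.range_comp, Submodule.range_subtype]
  have h3 : LinearMap.ker q
      = Submodule.comap (homogeneousSubmodule σ ℂ t).subtype (I.restrictScalars ℂ) := by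
    ext x
    rw [LinearMap.mem_ker, Submodule.mem_comap, Submodule.restrictScalars_mem]
    exact Ideal.Quotient.eq_zero_iff_mem
  rw [h2, h3, Pool.Agent.H75.Apolar.finrank_comap] at h1
  rw [hilb]
  omega

/-- saturation with respect to the powers of the irrelevant ideal and of the variables -/
lemma sat_bridge (I : Ideal (MvPolynomial σ ℂ)) (g : MvPolynomial σ ℂ) (N : ℕ)
    (h : ∀ s : σ, X s ^ N * g ∈ I) : ∃ M : ℕ,
    ∀ h ∈ (Ideal.span (Set.range (X : σ → MvPolynomial σ ℂ))) ^ M, h * g ∈ I := by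
  let J : Ideal (MvPolynomial σ ℂ) := Submodule.colon I {g}
  have hJ : ∀ x, x ∈ J ↔ x * g ∈ I := by
    intro x
    exact Submodule.mem_colon_singleton
  have hle : Ideal.span (Set.range (X : σ → MvPolynomial σ ℂ)) ≤ J.radical := by
    rw [Ideal.span_le]
    rintro _ ⟨s, rfl⟩
    exact ⟨N, (hJ _).2 (h s)⟩
  obtain ⟨M, hM⟩ := Ideal.exists_pow_le_of_le_radical_of_fg hle
    ((isNoetherianRing_iff_ideal_fg _).1 inferInstance _)
  exact ⟨M, fun x hx => (hJ x).1 (hM hx)⟩

end bridge

section example_facts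

open Pool.Agent.H75.Apolar Module

variable {k : ℕ}

/-- the identification of the variables -/
def er (k : ℕ) : Fin 2 ⊕ (Fin 5 × Fin k) ≃ Var k := Equiv.refl _

lemma cubic_eq (k : ℕ) : cubic k = fpoly (er k) := by
  rw [cubic, fpoly]
  refine Finset.sum_congr rfl fun i _ => Finset.sum_congr rfl fun a _ => ?_
  have h0 : ∀ c : Fin 2, monomial (ex (er k) c i a) (1 : ℂ)
      = X (Sum.inl c) * X (Sum.inr (i, a)) ^ 2 := by
    intro c
    rw [ex, X, X, monomial_pow, monomial_mul, one_mul, one_pow, Finsupp.smul_single]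
    rfl
  have h1 : monomial (ex (er k) 1 i a) (cc i)
      = C ((i : ℕ) : ℂ) * monomial (ex (er k) 1 i a) (1 : ℂ) := by
    rw [C_mul_monomial, mul_one]
    rfl
  rw [h1, h0, h0]
  ring

lemma cubic_hom (k : ℕ) : (cubic k).IsHomogeneous 3 := by
  rw [cubic_eq]
  exact fpoly_hom (er k)

lemma point_eq (i : Fin 5) : point k i = pt (er k) i := by
  funext s
  rcases s with c | p <;> rfl

lemma apolar_J (J : Ideal (MvPolynomial (Var k) ℂ)) (hJ : Apolar J (cubic k)) (g : _)
    (hg : g ∈ J) : pf (er k) g = 0 := by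
  have h1 := congrArg (coeff 0) (hJ g hg)
  rw [coeff_act, cubic_eq, apolar_sum, coeff_zero] at h1
  simpa using h1

lemma apolar_I : Apolar (idl (er k)) (cubic k) := by
  intro g hg
  ext β
  rw [coeff_act, cubic_eq, apolar_sum, idl_apolar (er k) _ (Ideal.mul_mem_left _ _ hg), mul_zero,
    coeff_zero]

lemma lower (hk : 136 ≤ k) (J : Ideal (MvPolynomial (Var k) ℂ)) (r : ℕ)
    (h1 : PointScheme J r) (h2 : Apolar J (cubic k)) : 5 * k + 10 ≤ r := by
  obtain ⟨t0, h3⟩ := h1.degree
  refine lower_J hk J ⟨h1.homogeneous, ?_⟩ (pf (er k)) (apolar_J J h2) (tau0 (er k))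
    (tau0_surj (er k)) (tau0_hom (er k)) (pf_tri (er k)) r t0 ?_
  · rintro g ⟨N, hN⟩
    exact h1.saturated g (sat_bridge J g N hN)
  · intro t ht
    rw [← hilb_bridge]
    exact h3 t ht

lemma hilb_range (t : ℕ) :
    hilb (idl (er k)) t = finrank ℂ (LinearMap.range (EvS (er k) t)) := by
  rw [hilb_bridge, hilb_eq]

lemma kap_low {F : MvPolynomial (Var k) ℂ} {t : ℕ} (ht : t ≤ 3) (hF : F.IsHomogeneous t) :
    ∑ i, kap i * eval (pt (er k) i) F = 0 := by
  have h1 : (X (xi (er k) 0) ^ (3 - t) * F).IsHomogeneous 3 := by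
    have h := (isHomogeneous_X_pow (R := ℂ) (xi (er k) 0) (3 - t)).mul hF
    have h2 : 3 - t + t = 3 := by omega
    rwa [h2] at h
  have h2 := kap_hom (er k) h1
  simpa using h2

lemma hilb_small {t : ℕ} (ht : t ≤ 3) : hilb (idl (er k)) t < 5 * k + 10 := by
  have hle : hilb (idl (er k)) t ≤ 5 * k + 10 := by
    rw [hilb_range, ← finrank_target (k := k)]
    exact Submodule.finrank_le _
  refine lt_of_le_of_ne hle fun h => ?_
  rw [hilb_range] at h
  have h1 : LinearMap.range (EvS (er k) t) = ⊤ := by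
    apply Submodule.eq_top_of_finrank_eq
    rw [h, finrank_target]
  obtain ⟨⟨F, hF⟩, h2⟩ := (LinearMap.range_eq_top.1 h1) (Pi.single 0 1, 0, 0)
  have h3 : ∀ i, eval (pt (er k) i) F = (Pi.single (0 : Fin 5) (1 : ℂ) : Fin 5 → ℂ) i := by
    intro i
    have : (Ev (er k) F).1 i = (Pi.single (0 : Fin 5) (1 : ℂ) : Fin 5 → ℂ) i := by
      change Ev (er k) F = _ at h2
      rw [h2]
    exact this
  have h4 := kap_low ht hF
  simp only [h3] at h4
  simp [kap, Fin.sum_univ_five] at h4

lemma pderiv_X0 (j : Fin 5) (b : Fin k) (N : ℕ) (G : MvPolynomial (Var k) ℂ) :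
    pderiv (mi (er k) j b) (X (xi (er k) 0) ^ N * G)
      = X (xi (er k) 0) ^ N * pderiv (mi (er k) j b) G := by
  have h1 : pderiv (mi (er k) j b) ((X (xi (er k) 0) : MvPolynomial (Var k) ℂ) ^ N) = 0 := by
    rw [Derivation.leibniz_pow, pderiv_X_of_ne (xi_ne_mi (er k) 0 j b)]
    simp
  rw [Derivation.leibniz, h1, smul_zero, add_zero, smul_eq_mul]

lemma EvS_surj4 (hk : 0 < k) (t : ℕ) (ht : 4 ≤ t) : LinearMap.range (EvS (er k) t) = ⊤ := by
  classical
  have hmem : ∀ F : MvPolynomial (Var k) ℂ, F.IsHomogeneous t →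
      Ev (er k) F ∈ LinearMap.range (EvS (er k) t) :=
    fun F hF => ⟨⟨F, hF⟩, rfl⟩
  obtain ⟨N, rfl⟩ : ∃ N, t = N + 4 := ⟨t - 4, by omega⟩
  have hA : ∀ i, ((Pi.single i 1 : Fin 5 → ℂ), (0 : Fin 5 → Fin k → ℂ), (0 : Fin 5 → ℂ))
      ∈ LinearMap.range (EvS (er k) (N + 4)) := by
    intro i
    have h1 := hmem (BB (er k) i N) (BB_hom (er k) i N)
    have h2 : Ev (er k) (BB (er k) i N) = (eval (pt (er k) i) (PP (er k) i)) •
        ((Pi.single i 1 : Fin 5 → ℂ), (0 : Fin 5 → Fin k → ℂ), (0 : Fin 5 → ℂ)) := by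
      rw [Ev_apply]
      refine Prod.ext ?_ (Prod.ext ?_ ?_)
      · ext j
        by_cases hij : i = j
        · subst hij; simp [eval_BB]
        · simp [eval_BB, eval_PP_ne (er k) hij, Ne.symm hij]
      · ext j a
        simp [pderiv_BB]
      · ext j
        have : lap (er k) j (BB (er k) i N) = 0 :=
          lap_zero_of (er k) j _ (fun _ => 0) (fun a => by rw [pderiv_BB, C_0])
        simp [this]
    rw [h2] at h1
    exact (Submodule.smul_mem_iff _ (eval_PP_self (er k) i)).1 h1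
  have hB : ∀ i a, ((0 : Fin 5 → ℂ), (Pi.single i (Pi.single a 1) : Fin 5 → Fin k → ℂ),
      (0 : Fin 5 → ℂ)) ∈ LinearMap.range (EvS (er k) (N + 4)) := by
    intro i a
    have h1 := hmem (X (xi (er k) 0) ^ (N + 3) * X (mi (er k) i a)) (by
      have := (isHomogeneous_X_pow (R := ℂ) (xi (er k) 0) (N + 3)).mul
        (isHomogeneous_X ℂ (mi (er k) i a))
      simpa using this)
    have h2 : Ev (er k) (X (xi (er k) 0) ^ (N + 3) * X (mi (er k) i a)) =
        ((0 : Fin 5 → ℂ), (Pi.single i (Pi.single a 1) : Fin 5 → Fin k → ℂ),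
          (0 : Fin 5 → ℂ)) := by
      rw [Ev_apply]
      refine Prod.ext ?_ (Prod.ext ?_ ?_)
      · ext j; simp
      · ext j b
        change eval (pt (er k) j) (pderiv (mi (er k) j b) (X (xi (er k) 0) ^ (N + 3)
          * X (mi (er k) i a))) = _
        rw [pderiv_X0, pderiv_mX]
        by_cases hij : i = j
        · subst hij
          by_cases hab : a = b
          · subst hab; simp
          · simp [hab, Ne.symm hab]
        · simp [hij, Ne.symm hij]
      · ext j
        have : lap (er k) j (X (mi (er k) i a) : MvPolynomial (Var k) ℂ) = 0 :=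
          lap_zero_of (er k) j _ (fun b => if i = j ∧ a = b then 1 else 0)
            (fun b => pderiv_mX (er k) i j a b)
        change eval (pt (er k) j) (lap (er k) j (X (xi (er k) 0) ^ (N + 3)
          * X (mi (er k) i a))) = _
        rw [lap_X_mul, this]; simp
    rwa [h2] at h1
  have hC : ∀ i, ((0 : Fin 5 → ℂ), (0 : Fin 5 → Fin k → ℂ), (Pi.single i 1 : Fin 5 → ℂ))
      ∈ LinearMap.range (EvS (er k) (N + 4)) := by
    intro i
    let a0 : Fin k := ⟨0, hk⟩
    have h1 := hmem (X (xi (er k) 0) ^ (N + 2) * (X (mi (er k) i a0) * X (mi (er k) i a0))) (by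
      have := (isHomogeneous_X_pow (R := ℂ) (xi (er k) 0) (N + 2)).mul
        ((isHomogeneous_X ℂ (mi (er k) i a0)).mul (isHomogeneous_X ℂ (mi (er k) i a0)))
      simpa using this)
    have h2 : Ev (er k) (X (xi (er k) 0) ^ (N + 2) * (X (mi (er k) i a0) * X (mi (er k) i a0)))
        = (2 : ℂ) •
        ((0 : Fin 5 → ℂ), (0 : Fin 5 → Fin k → ℂ), (Pi.single i 1 : Fin 5 → ℂ)) := by
      rw [Ev_apply]
      refine Prod.ext ?_ (Prod.ext ?_ ?_)
      · ext j; simp
      · ext j b
        change eval (pt (er k) j) (pderiv (mi (er k) j b) (X (xi (er k) 0) ^ (N + 2)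
          * (X (mi (er k) i a0) * X (mi (er k) i a0)))) = _
        rw [pderiv_X0, Derivation.leibniz]
        simp
      · ext j
        have h3 : lap (er k) j (X (mi (er k) i a0) * X (mi (er k) i a0)
            : MvPolynomial (Var k) ℂ) = C (if i = j then 2 else 0) := by
          rw [lap_apply]
          have h4 : ∀ b, pderiv (mi (er k) j b) (pderiv (mi (er k) j b)
              (X (mi (er k) i a0) * X (mi (er k) i a0) : MvPolynomial (Var k) ℂ))
              = C (2 * (if i = j ∧ a0 = b then 1 else 0)) := by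
            intro b
            simp only [Derivation.leibniz, smul_eq_mul, map_add, pderiv_mX, pderiv_C, C_mul,
              mul_zero]
            by_cases h : i = j ∧ a0 = b
            · simp only [if_pos h, C_1, mul_one, zero_add]
              rw [← C_1, ← C_add]; norm_num
            · simp [if_neg h]
          simp only [h4]
          rw [← map_sum]
          congr 1
          by_cases hij : i = j
          · simp [hij]
          · simp [hij]
        change eval (pt (er k) j) (lap (er k) j (X (xi (er k) 0) ^ (N + 2)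
          * (X (mi (er k) i a0) * X (mi (er k) i a0)))) = _
        rw [lap_X_mul, h3]
        by_cases hij : i = j
        · subst hij; simp
        · simp [hij, Ne.symm hij]
    rw [h2] at h1
    exact (Submodule.smul_mem_iff _ (two_ne_zero' ℂ)).1 h1
  rw [eq_top_iff]
  rintro ⟨u, v, w⟩ -
  have hdec : ((u, v, w) : (Fin 5 → ℂ) × (Fin 5 → Fin k → ℂ) × (Fin 5 → ℂ))
      = ∑ i, u i • ((Pi.single i 1 : Fin 5 → ℂ), (0 : Fin 5 → Fin k → ℂ), (0 : Fin 5 → ℂ))
      + (∑ i, ∑ a, v i a • ((0 : Fin 5 → ℂ), (Pi.single i (Pi.single a 1) : Fin 5 → Fin k → ℂ),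
      (0 : Fin 5 → ℂ)) + ∑ i, w i • ((0 : Fin 5 → ℂ), (0 : Fin 5 → Fin k → ℂ),
        (Pi.single i 1 : Fin 5 → ℂ))) := by
    refine Prod.ext ?_ (Prod.ext ?_ ?_)
    · ext j
      simp [Prod.fst_sum, Finset.sum_apply, Pi.single_apply]
    · ext j b
      simp [Prod.fst_sum, Prod.snd_sum, Finset.sum_apply, Pi.single_apply]
    · ext j
      simp [Prod.snd_sum, Finset.sum_apply, Pi.single_apply]
  rw [hdec]
  refine Submodule.add_mem _ (Submodule.sum_mem _ fun i _ => Submodule.smul_mem _ _ (hA i))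
    (Submodule.add_mem _ (Submodule.sum_mem _ fun i _ => Submodule.sum_mem _ fun a _ =>
      Submodule.smul_mem _ _ (hB i a)) (Submodule.sum_mem _ fun i _ =>
        Submodule.smul_mem _ _ (hC i)))

lemma hilb_large (hk : 0 < k) {t : ℕ} (ht : 4 ≤ t) : hilb (idl (er k)) t = 5 * k + 10 := by
  rw [hilb_range, EvS_surj4 hk t ht, finrank_top, finrank_target]

lemma scheme_I (hk : 0 < k) : PointScheme (idl (er k)) (5 * k + 10) := by
  refine ⟨(idl_sat (er k)).hom, ?_, ⟨4, fun t ht => hilb_large hk ht⟩⟩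
  rintro g ⟨N, hN⟩
  refine (idl_sat (er k)).sat g ⟨N, fun s => ?_⟩
  exact hN _ (Ideal.pow_mem_pow (Ideal.subset_span (Set.mem_range_self s)) N)

lemma cubic_ne (hk : 136 ≤ k) : cubic k ≠ 0 := by
  intro h
  have h1 : Apolar (⊤ : Ideal (MvPolynomial (Var k) ℂ)) (cubic k) := by
    intro g _
    rw [act]
    refine Finset.sum_eq_zero fun α _ => ?_
    rw [h, map_zero, smul_zero]
  have h2 : PointScheme (⊤ : Ideal (MvPolynomial (Var k) ℂ)) 0 := by
    refine ⟨fun _ _ _ => trivial, fun _ _ => trivial, ⟨0, fun t _ => ?_⟩⟩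
    rw [hilb_bridge, Submodule.restrictScalars_top, top_inf_eq, Nat.sub_self]
  have h3 := lower hk _ _ h2 h1
  omega

end example_facts

/-- For every `k ≥ 136` the cubic form `Σ_i Σ_a (x_0 + i x_1) y_(i,a)^2` (`i ≤ 4`, `a < k`) in
`5 k + 2` variables has cactus rank `5 k + 10`, and it has a minimal apolar scheme whose
regularity is `4`. -/
theorem result (k : ℕ) (hk : 136 ≤ k) :
    (cubic k).IsHomogeneous 3 ∧ cubic k ≠ 0 ∧
    IsLeast {r | ∃ J : Ideal (MvPolynomial (Var k) ℂ), PointScheme J r ∧ Apolar J (cubic k)}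
      (5 * k + 10) ∧
    ∃ I : Ideal (MvPolynomial (Var k) ℂ), PointScheme I (5 * k + 10) ∧ Apolar I (cubic k) ∧
      hilb I 3 < 5 * k + 10 ∧
      IsLeast {t | hilb I t = 5 * k + 10} 4 ∧ (∀ t ≥ 4, hilb I t = 5 * k + 10) ∧
      ∀ (t : ℕ) (g : MvPolynomial (Var k) ℂ), g.IsHomogeneous t →
        (g ∈ I ↔ ∀ i : Fin 5, eval (point k i) g = 0 ∧
          (∀ a, eval (point k i) (pderiv (Sum.inr (i, a)) g) = 0) ∧
          ∑ a, eval (point k i) (pderiv (Sum.inr (i, a)) (pderiv (Sum.inr (i, a)) g)) = 0) := by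
  have hk0 : 0 < k := by omega
  refine ⟨cubic_hom k, cubic_ne hk,
    ⟨⟨Pool.Agent.H75.Apolar.idl (er k), scheme_I hk0, apolar_I⟩, ?_⟩,
    Pool.Agent.H75.Apolar.idl (er k), scheme_I hk0,
    apolar_I, hilb_small le_rfl, ⟨hilb_large hk0 le_rfl, ?_⟩, fun t ht => hilb_large hk0 ht, ?_⟩
  · rintro r ⟨J, h1, h2⟩
    exact lower hk J r h1 h2
  · intro t ht
    by_contra hlt
    exact (hilb_small (k := k) (t := t) (by omega)).ne ht
  · intro t g hg
    rw [Pool.Agent.H75.Apolar.idl_hom_iff (er k) hg]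
    refine forall_congr' fun i => ?_
    rw [point_eq, Pool.Agent.H75.Apolar.lap_apply, map_sum]
    exact Iff.rfl

end Pool.Agent.Results.MP_f758bb_ag.RegularityFour
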